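import Pool.Agent.R5.HX.Basic

/-!
# Fastest guaranteed win in Hex: at least `n + ⌊n/4⌋` moves

The second player groups the rows by four.  After the first stone `(i, j)` of the first player in
a group he takes the cell two rows further in the group (the far end of a bridge), and from
then on he answers inside two pairs of cells.  So no winning chain has exactly one stone of the
first player in each row of a group.
-/

namespace Pool.Agent.Results.MP_779ef9_co.BlockingInRowGroups

open Pool.Agent.R5.HX

theorem result : ∀ n k : ℕ, CanWin n k ∅ ∅ → n + n / 4 ≤ k :=
  fun n k h => main n k h

end Pool.Agent.Results.MP_779ef9_co.BlockingInRowGroups
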